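import Mathlib

namespace Pool.Agent.P.MP_c8f9b2_an

open Laplacian

/-- `u` is a radial classical solution of the equation `Δ^m u = - e^u` on all of `ℝ^(2m)` with the
initial values `Δ^i u (0) = a i` for `0 ≤ i ≤ m - 1`. -/
def IsRadialSol (m : ℕ) (a : Fin m → ℝ) (u : EuclideanSpace ℝ (Fin (2 * m)) → ℝ) : Prop :=
  ContDiff ℝ (2 * m : ℕ) u ∧ (∀ x y, ‖x‖ = ‖y‖ → u x = u y) ∧
    (∀ x, (Δ^[m] u) x = -Real.exp (u x)) ∧ ∀ i : Fin m, (Δ^[i] u) 0 = a i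

end Pool.Agent.P.MP_c8f9b2_an
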