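import Pool.Agent.P.MP_c8f9b2_an.Radial

open Filter Topology Set Laplacian InnerProductSpace MeasureTheory

namespace Pool.Agent.P.MP_c8f9b2_an

/-- weighted average along the ray -/
noncomputable def av (k : ℕ) (f : ℝ → ℝ) (ρ : ℝ) : ℝ := ∫ t in (0 : ℝ)..1, t ^ k * f (ρ * t)

/-- the inverse of the radial Laplacian in the variable equal to the squared norm -/
noncomputable def inv (k : ℕ) (f : ℝ → ℝ) (ρ : ℝ) : ℝ := ∫ s in (0 : ℝ)..ρ, av k f s / 4

variable {k : ℕ} {f f1 f2 : ℝ → ℝ}

lemma av_cont (hf : Continuous f) : Continuous (av k f) :=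
  intervalIntegral.continuous_parametric_intervalIntegral_of_continuous' (by fun_prop) 0 1

lemma av_deriv (hf : ContDiff ℝ 1 f) (ρ : ℝ) :
    HasDerivAt (av k f) (av (k + 1) (deriv f) ρ) ρ := by
  have hc := hf.continuous
  have hc' : Continuous (deriv f) := hf.continuous_deriv le_rfl
  obtain ⟨C, hC⟩ := (isCompact_closedBall (0 : ℝ) (|ρ| + 1)).exists_bound_of_continuousOn
    hc'.continuousOn
  refine (intervalIntegral.hasDerivAt_integral_of_dominated_loc_of_deriv_le
    (F := fun ρ t => t ^ k * f (ρ * t)) (F' := fun ρ t => t ^ (k + 1) * deriv f (ρ * t))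
    (bound := fun _ => C) (Metric.ball_mem_nhds ρ one_pos)
    (Eventually.of_forall fun x => Continuous.aestronglyMeasurable (by fun_prop))
    (Continuous.intervalIntegrable (by fun_prop) _ _)
    (Continuous.aestronglyMeasurable (by fun_prop))
    (Eventually.of_forall fun t ht x hx => ?_) intervalIntegrable_const
    (Eventually.of_forall fun t _ x _ => ?_)).2
  · rw [uIoc_of_le zero_le_one] at ht
    have h1 : |x| ≤ |ρ| + 1 := by
      have := abs_sub_abs_le_abs_sub x ρ
      rw [Metric.mem_ball, Real.dist_eq] at hx; linarith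
    have h2 := hC (x * t) (by
      rw [mem_closedBall_zero_iff, Real.norm_eq_abs, abs_mul, abs_of_pos ht.1]
      nlinarith [abs_nonneg x, ht.1, ht.2])
    rw [norm_mul, norm_pow, Real.norm_of_nonneg ht.1.le]
    exact (mul_le_of_le_one_left (norm_nonneg _) (pow_le_one₀ ht.1.le ht.2)).trans h2
  · have := (((hf.differentiable one_ne_zero (x * t)).hasDerivAt).comp x
      (hasDerivAt_mul_const t)).const_mul (t ^ k)
    rw [show t ^ (k + 1) * deriv f (x * t) = t ^ k * (deriv f (x * t) * t) by ring]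
    exact this

lemma av_contDiff (n : ℕ) : ∀ {k : ℕ} {f : ℝ → ℝ}, ContDiff ℝ n f → ContDiff ℝ n (av k f) := by
  induction n with
  | zero => intro k f hf; exact contDiff_zero.2 (av_cont hf.continuous)
  | succ n ih =>
    intro k f hf
    have h1 : ContDiff ℝ 1 f := hf.of_le (by exact_mod_cast (by omega))
    push_cast at hf ⊢
    rw [contDiff_succ_iff_deriv] at hf ⊢
    refine ⟨fun ρ => (av_deriv h1 ρ).differentiableAt, by simp, ?_⟩
    rw [show deriv (av k f) = av (k + 1) (deriv f) from funext fun ρ => (av_deriv h1 ρ).deriv]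
    exact ih hf.2.2

lemma av_id (hf : ContDiff ℝ 1 f) (ρ : ℝ) :
    ρ * av (k + 1) (deriv f) ρ + (k + 1) * av k f ρ = f ρ := by
  have hc := hf.continuous
  have hc' : Continuous (deriv f) := hf.continuous_deriv le_rfl
  have := intervalIntegral.integral_eq_sub_of_hasDerivAt (a := 0) (b := 1)
    (f := fun t => t ^ (k + 1) * f (ρ * t))
    (f' := fun t => ρ * (t ^ (k + 1) * deriv f (ρ * t)) + (k + 1) * (t ^ k * f (ρ * t)))
    (fun t _ => by
      have := (hasDerivAt_pow (k + 1) t).mul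
        (((hf.differentiable one_ne_zero (ρ * t)).hasDerivAt).comp t (hasDerivAt_const_mul ρ))
      rw [show ρ * (t ^ (k + 1) * deriv f (ρ * t)) + (k + 1) * (t ^ k * f (ρ * t)) =
        ((k + 1 : ℕ) : ℝ) * t ^ (k + 1 - 1) * f (ρ * t) + t ^ (k + 1) * (deriv f (ρ * t) * ρ) by
          simp; ring]
      exact this) (Continuous.intervalIntegrable (by fun_prop) _ _)
  rw [intervalIntegral.integral_add (Continuous.intervalIntegrable (by fun_prop) _ _)
    (Continuous.intervalIntegrable (by fun_prop) _ _), intervalIntegral.integral_const_mul,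
    intervalIntegral.integral_const_mul] at this
  simpa [av] using this

lemma inv_deriv (hf : Continuous f) (ρ : ℝ) : HasDerivAt (inv k f) (av k f ρ / 4) ρ :=
  (((av_cont hf).div_const 4).integral_hasStrictDerivAt 0 ρ).hasDerivAt

lemma inv_contDiff {n : ℕ} (hf : ContDiff ℝ n f) : ContDiff ℝ (n + 1 : ℕ) (inv k f) := by
  push_cast
  rw [contDiff_succ_iff_deriv]
  refine ⟨fun ρ => (inv_deriv hf.continuous ρ).differentiableAt, by simp, ?_⟩
  rw [show deriv (inv k f) = fun ρ => av k f ρ / 4 from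
    funext fun ρ => (inv_deriv hf.continuous ρ).deriv]
  exact (av_contDiff n hf).div_const 4

lemma inv_cont (hf : Continuous f) : Continuous (inv k f) :=
  continuous_iff_continuousAt.2 fun ρ => (inv_deriv hf ρ).continuousAt

lemma lap_inv {E : Type*} [NormedAddCommGroup E] [InnerProductSpace ℝ E] [FiniteDimensional ℝ E]
    (hE : Module.finrank ℝ E = 2 * (k + 1)) (hf : ContDiff ℝ 1 f) (c : ℝ) :
    Δ (fun y : E => c + inv k f (‖y‖ ^ 2)) = fun y => f (‖y‖ ^ 2) := by
  funext x
  rw [lap_normsq (g := fun s => c + inv k f s) (g' := fun s => av k f s / 4)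
    (Eventually.of_forall fun s => (inv_deriv hf.continuous s).const_add c)
    ((av_deriv hf _).div_const 4), hE, ← av_id (k := k) hf]
  push_cast; ring

lemma inv_sub (h1 : Continuous f1) (h2 : Continuous f2) (ρ : ℝ) :
    inv k f1 ρ - inv k f2 ρ = inv k (fun s => f1 s - f2 s) ρ := by
  unfold inv
  rw [← intervalIntegral.integral_sub (((av_cont h1).div_const 4).intervalIntegrable _ _)
    (((av_cont h2).div_const 4).intervalIntegrable _ _)]
  congr 1; funext s
  unfold av
  rw [← sub_div, ← intervalIntegral.integral_sub (Continuous.intervalIntegrable (by fun_prop) _ _)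
    (Continuous.intervalIntegrable (by fun_prop) _ _)]
  simp only [mul_sub]

lemma inv_nonneg' (h : ∀ s ≥ 0, 0 ≤ f s) {ρ : ℝ} (hρ : 0 ≤ ρ) : 0 ≤ inv k f ρ :=
  intervalIntegral.integral_nonneg hρ fun s hs => div_nonneg
    (intervalIntegral.integral_nonneg zero_le_one fun t ht =>
      mul_nonneg (pow_nonneg ht.1 _) (h _ (mul_nonneg hs.1 ht.1))) (by norm_num)

lemma inv_bound {V V' : ℝ → ℝ} (hd : ∀ r, HasDerivAt V (V' r) r) (hm : Monotone V')
    (h0 : 0 ≤ V 0) (hf : Continuous f) (hb : ∀ ρ, |f ρ| ≤ V' |ρ|) (ρ : ℝ) :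
    |inv k f ρ| ≤ V |ρ| / 4 := by
  have h1 : ∀ s, |av k f s| ≤ V' |s| := fun s => by
    have := intervalIntegral.norm_integral_le_of_norm_le_const (a := 0) (b := 1) (C := V' |s|)
      (f := fun t => t ^ k * f (s * t)) (fun t ht => by
        rw [uIoc_of_le zero_le_one] at ht
        rw [norm_mul, norm_pow, Real.norm_of_nonneg ht.1.le]
        refine (mul_le_of_le_one_left (norm_nonneg _) (pow_le_one₀ ht.1.le ht.2)).trans
          ((hb _).trans (hm ?_))
        rw [abs_mul, abs_of_pos ht.1]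
        exact mul_le_of_le_one_right (abs_nonneg _) ht.2)
    simpa [av] using this
  have h2 : ∀ δ ε : ℝ, |δ| = 1 → |ε| = 1 → ∀ r ≥ 0, δ * inv k f (ε * r) ≤ V r / 4 := by
    intro δ ε hδ hε r hr
    have := le_of_deriv' (h := fun r => V r / 4 - δ * inv k f (ε * r)) (R := 0)
      (fun x _ => ((hd x).div_const 4).sub
        (((inv_deriv hf (ε * x)).comp x (hasDerivAt_const_mul ε)).const_mul δ)) (fun x hx => by
        have h3 := h1 (ε * x)
        rw [abs_mul, hε, one_mul, abs_of_pos hx] at h3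
        have h4 : δ * (av k f (ε * x) / 4 * ε) ≤ |av k f (ε * x)| / 4 := by
          refine (le_abs_self _).trans_eq ?_
          simp [abs_mul, abs_div, hδ, hε]
        linarith) hr
    simp only [mul_zero, inv, intervalIntegral.integral_same] at this
    simp only [inv]
    linarith
  rcases le_total 0 ρ with h | h
  · rw [abs_of_nonneg h, abs_le]
    have h3 := h2 1 1 (by simp) (by simp) ρ h
    have h4 := h2 (-1) 1 (by simp) (by simp) ρ h
    simp only [one_mul] at h3 h4
    constructor <;> linarith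
  · rw [abs_of_nonpos h, abs_le]
    have h3 := h2 1 (-1) (by simp) (by simp) (-ρ) (by linarith)
    have h4 := h2 (-1) (-1) (by simp) (by simp) (-ρ) (by linarith)
    simp only [one_mul, neg_mul, neg_neg] at h3 h4
    constructor <;> linarith

/-- iterated inverse with prescribed values at the origin -/
noncomputable def ch (k : ℕ) (b : ℕ → ℝ) (f : ℝ → ℝ) : ℕ → ℝ → ℝ
  | 0 => f
  | j + 1 => fun ρ => b j + inv k (ch k b f j) ρ

variable {b : ℕ → ℝ}

lemma ch_cont (hf : Continuous f) (j : ℕ) : Continuous (ch k b f j) := by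
  induction j with
  | zero => exact hf
  | succ j ih => exact continuous_const.add (inv_cont ih)

lemma ch_contDiff {n : ℕ} (hf : ContDiff ℝ n f) (j : ℕ) :
    ContDiff ℝ (n + j : ℕ) (ch k b f j) := by
  induction j with
  | zero => exact hf
  | succ j ih => exact contDiff_const.add (inv_contDiff ih)

lemma ch_sub (h1 : Continuous f1) (h2 : Continuous f2) (j : ℕ) (ρ : ℝ) :
    ch k b f1 j ρ - ch k b f2 j ρ = ch k 0 (fun s => f1 s - f2 s) j ρ := by
  induction j generalizing ρ with
  | zero => rfl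
  | succ j ih =>
    simp only [ch, add_sub_add_left_eq_sub, inv_sub (ch_cont h1 j) (ch_cont h2 j), ih,
      Pi.zero_apply, zero_add]

lemma ch_nonneg (h : ∀ s ≥ 0, 0 ≤ f s) (j : ℕ) : ∀ s ≥ 0, 0 ≤ ch k 0 f j s := by
  induction j with
  | zero => exact h
  | succ j ih => intro s hs; simpa [ch] using inv_nonneg' ih hs

lemma ch_bound {V V' : ℝ → ℝ} (hd : ∀ r, HasDerivAt V (V' r) r) (hm : Monotone V')
    (h0 : ∀ r, 0 ≤ V r) (hV : ∀ r ≥ 0, V r ≤ V' r) (hf : Continuous f)
    (hb : ∀ ρ, |f ρ| ≤ V' |ρ|) (j : ℕ) (ρ : ℝ) : |ch k 0 f (j + 1) ρ| ≤ V |ρ| / 4 := by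
  induction j generalizing ρ with
  | zero => simpa [ch] using inv_bound hd hm (h0 0) hf hb ρ
  | succ j ih =>
    have := inv_bound (k := k) hd hm (h0 0) (ch_cont hf (j + 1))
      (fun s => (ih s).trans (by linarith [h0 |s|, hV |s| (abs_nonneg s)])) ρ
    rw [ch]; simpa using this

lemma ch_exp (j : ℕ) : ∃ C ≥ 0, ∀ ρ, |ch k b (fun _ => 0) j ρ| ≤ C * Real.exp |ρ| := by
  induction j with
  | zero => exact ⟨0, le_rfl, fun ρ => by simp [ch]⟩
  | succ j ih =>
    obtain ⟨C, hC, h⟩ := ih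
    refine ⟨|b j| + C, by positivity, fun ρ => ?_⟩
    have h1 := inv_bound (k := k) (fun r => (Real.hasDerivAt_exp r).const_mul C)
      (Real.exp_monotone.const_mul hC) (by positivity) (ch_cont continuous_const j) h ρ
    have h2 : 1 ≤ Real.exp |ρ| := Real.one_le_exp (abs_nonneg ρ)
    have h3 := abs_add_le (b j) (inv k (ch k b (fun _ => 0) j) ρ)
    rw [ch]
    nlinarith [abs_nonneg (b j)]

lemma exists_trunc : ∃ (G : ℝ → ℝ) (L : ℝ), 0 < L ∧ (∀ n : ℕ, ContDiff ℝ n G) ∧
    (∀ y ≥ 0, G y = Real.exp (-y)) ∧ (∀ y, 0 ≤ G y) ∧ (∀ y, G y ≤ L) ∧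
    ∀ y z, |G y - G z| ≤ L * |y - z| := by
  set G : ℝ → ℝ := fun y => Real.exp (-y) * Real.smoothTransition (y + 1) with hG
  have hs : ∀ n : ℕ, ContDiff ℝ n G := fun n =>
    (Real.contDiff_exp.comp contDiff_neg).mul
      (Real.smoothTransition.contDiff.comp (contDiff_id.add contDiff_const))
  have h1 : ∀ y ≥ 0, G y = Real.exp (-y) := fun y hy => by
    simp only [hG]; rw [Real.smoothTransition.one_of_one_le (by linarith), mul_one]
  have h2 : ∀ y ≤ -1, G y = 0 := fun y hy => by
    simp only [hG]; rw [Real.smoothTransition.zero_of_nonpos (by linarith), mul_zero]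
  obtain ⟨C, hC⟩ := (isCompact_Icc (a := (-1 : ℝ)) (b := 0)).exists_bound_of_continuousOn
    ((hs 1).continuous_deriv (by simp)).continuousOn
  have hC0 : 0 ≤ C := (norm_nonneg _).trans (hC 0 (by simp))
  have he := Real.exp_pos 1
  have he1 : 1 ≤ Real.exp 1 := Real.one_le_exp zero_le_one
  refine ⟨G, C + Real.exp 1, by positivity, hs, h1, fun y =>
    mul_nonneg (Real.exp_pos _).le (Real.smoothTransition.nonneg _), fun y => ?_, fun y z => ?_⟩
  · rcases le_total y (-1) with hy | hy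
    · rw [h2 y hy]; positivity
    · have : G y ≤ Real.exp 1 := (mul_le_of_le_one_right (Real.exp_pos _).le
        (Real.smoothTransition.le_one _)).trans (Real.exp_le_exp.2 (by linarith))
      linarith
  · refine convex_univ.norm_image_sub_le_of_norm_deriv_le
      (fun x _ => (hs 1).differentiable (by simp) x) (fun x _ => ?_) (mem_univ z) (mem_univ y)
    rcases lt_or_ge x (-1) with hx | hx
    · have : G =ᶠ[𝓝 x] fun _ => 0 := (eventually_lt_nhds hx).mono fun y hy => h2 y hy.le
      rw [this.deriv_eq]; simp; positivity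
    rcases le_or_gt x 0 with hx' | hx'
    · linarith [hC x ⟨hx, hx'⟩]
    · have : G =ᶠ[𝓝 x] fun y => Real.exp (-y) :=
        (eventually_gt_nhds hx').mono fun y hy => h1 y hy.le
      rw [this.deriv_eq, ((hasDerivAt_neg' x).exp).deriv]
      have : Real.exp (-x) ≤ 1 := Real.exp_le_one_iff.2 (by linarith)
      simp only [mul_neg, mul_one, norm_neg, Real.norm_eq_abs, Real.abs_exp]
      linarith

lemma exists_weight (C : ℝ) (hC : 1 ≤ C) : ∃ W W' : ℝ → ℝ, (∀ r, HasDerivAt W (W' r) r) ∧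
    Monotone W' ∧ (∀ r, 1 ≤ W r) ∧ ∀ r ≥ 0, C * Real.exp (C * Real.exp r) * W r ≤ W' r := by
  refine ⟨fun r => Real.exp (Real.exp (C * Real.exp r)), fun r =>
    Real.exp (Real.exp (C * Real.exp r)) * (Real.exp (C * Real.exp r) * (C * Real.exp r)),
    fun r => ((Real.hasDerivAt_exp r).const_mul C).exp.exp, fun r s hrs => by dsimp only; gcongr,
    fun r => Real.one_le_exp (Real.exp_pos _).le, fun r hr => ?_⟩
  have h1 : 1 ≤ Real.exp r := Real.one_le_exp hr
  have h2 : 0 < C * Real.exp (C * Real.exp r) * Real.exp (Real.exp (C * Real.exp r)) := by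
    positivity
  nlinarith

lemma exists_fixed (k j : ℕ) (b : ℕ → ℝ) : ∃ f : ℝ → ℝ, (∀ n : ℕ, ContDiff ℝ n f) ∧
    ∀ ρ ≥ 0, f ρ = -Real.exp (ch k b f (j + 1) ρ) := by
  obtain ⟨G, L, hL, hG, hG1, hG2, hG3, hG4⟩ := exists_trunc
  obtain ⟨C, hC, hP⟩ := ch_exp (k := k) (b := b) (j + 1)
  set P := ch k b (fun _ => 0) (j + 1) with hPdef
  have hPs : ∀ n : ℕ, ContDiff ℝ n P := fun n =>
    (ch_contDiff (n := n) contDiff_const (j + 1)).of_le (by exact_mod_cast (by omega))
  have hPc := (hPs 0).continuous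
  have hGc := (hG 0).continuous
  obtain ⟨W, W', hW1, hW2, hW3, hW4⟩ := exists_weight (1 + C + L) (by linarith)
  have hWc : Continuous W := continuous_iff_continuousAt.2 fun r => (hW1 r).continuousAt
  have hW0 : ∀ r, 0 < W r := fun r => by linarith [hW3 r]
  have hW5 : ∀ ρ, L * Real.exp (P ρ) * W |ρ| ≤ W' |ρ| := fun ρ => by
    refine le_trans ?_ (hW4 _ (abs_nonneg ρ))
    have h1 : P ρ ≤ (1 + C + L) * Real.exp |ρ| := by
      nlinarith [le_abs_self (P ρ), hP ρ, Real.exp_pos |ρ|]
    have := (hW0 |ρ|).le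
    gcongr; linarith
  have hW6 : ∀ r ≥ 0, W r ≤ W' r := fun r hr => by
    refine le_trans ?_ (hW4 _ hr)
    have h1 : 1 ≤ Real.exp ((1 + C + L) * Real.exp r) := Real.one_le_exp (by positivity)
    exact le_mul_of_one_le_left (hW0 r).le (by nlinarith)
  have key : ∀ c ≥ 0, ∀ f, Continuous f → (∀ ρ, |f ρ| ≤ c * (L * Real.exp (P ρ) * W |ρ|)) →
      ∀ ρ, |ch k 0 f (j + 1) ρ / W (|ρ|)| ≤ c / 4 := by
    intro c hc f hf hb ρ
    have := ch_bound (k := k) (fun r => (hW1 r).const_mul c) (hW2.const_mul hc)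
      (fun r => mul_nonneg hc (hW0 r).le) (fun r hr => by gcongr; exact hW6 r hr) hf
      (fun s => (hb s).trans (by gcongr; exact hW5 s)) j ρ
    rw [abs_div, abs_of_pos (hW0 _), div_le_iff₀ (hW0 _)]
    linarith
  let N : BoundedContinuousFunction ℝ ℝ → ℝ → ℝ := fun φ ρ => Real.exp (P ρ) * G (φ ρ * W |ρ|)
  have hN : ∀ φ, Continuous (N φ) := fun φ => by simp only [N]; fun_prop
  let Φ : BoundedContinuousFunction ℝ ℝ → BoundedContinuousFunction ℝ ℝ := fun φ =>
    BoundedContinuousFunction.ofNormedAddCommGroup (fun ρ => ch k 0 (N φ) (j + 1) ρ / W |ρ|)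
      ((ch_cont (hN φ) _).div (by fun_prop) fun ρ => (hW0 _).ne') (1 / 4)
      (key 1 zero_le_one _ (hN φ) fun ρ => by
        simp only [N]
        rw [abs_of_nonneg (mul_nonneg (Real.exp_pos _).le (hG2 _))]
        have h1 := mul_le_mul_of_nonneg_left (hG3 (φ ρ * W |ρ|)) (Real.exp_pos (P ρ)).le
        have h2 := mul_pos hL (Real.exp_pos (P ρ))
        nlinarith [hW3 |ρ|])
  have hΦ : ContractingWith (1 / 4) Φ := by
    refine ⟨by norm_num, LipschitzWith.of_dist_le_mul fun φ ψ => ?_⟩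
    refine (BoundedContinuousFunction.dist_le (by positivity)).2 fun ρ => ?_
    have := key (dist φ ψ) dist_nonneg _ ((hN φ).sub (hN ψ)) (fun s => by
      simp only [N, Pi.sub_apply]
      rw [← mul_sub, abs_mul, Real.abs_exp]
      have h1 := hG4 (φ s * W |s|) (ψ s * W |s|)
      rw [← sub_mul, abs_mul, abs_of_pos (hW0 _)] at h1
      have h2 : |φ s - ψ s| ≤ dist φ ψ :=
        BoundedContinuousFunction.dist_coe_le_dist (f := φ) (g := ψ) s
      have := (hW0 |s|).le
      calc _ ≤ Real.exp (P s) * (L * (|φ s - ψ s| * W |s|)) := by gcongr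
        _ ≤ Real.exp (P s) * (L * (dist φ ψ * W |s|)) := by gcongr
        _ = _ := by ring) ρ
    show |ch k 0 (N φ) (j + 1) ρ / W (|ρ|) - ch k 0 (N ψ) (j + 1) ρ / W (|ρ|)| ≤ _
    rw [← sub_div, ch_sub (hN φ) (hN ψ)]
    push_cast
    exact this.trans_eq (by ring)
  set φ := hΦ.fixedPoint with hφ
  have h1 : ∀ ρ, φ ρ * W |ρ| = ch k 0 (N φ) (j + 1) ρ := fun ρ => by
    have : ch k 0 (N φ) (j + 1) ρ / W |ρ| = φ ρ := DFunLike.congr_fun hΦ.fixedPoint_isFixedPt ρ
    rw [← this, div_mul_cancel₀ _ (hW0 _).ne']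
  have h2 : ∀ n : ℕ, ContDiff ℝ n (N φ) := by
    intro n
    induction n with
    | zero => exact contDiff_zero.2 (hN φ)
    | succ n ih =>
      have h3 : ContDiff ℝ (n + 1 : ℕ) (ch k 0 (N φ) (j + 1)) :=
        (ch_contDiff ih _).of_le (by exact_mod_cast (by omega))
      have h4 := (hPs (n + 1)).exp.mul ((hG (n + 1)).comp h3)
      have h5 : N φ = fun x => Real.exp (P x) * (G ∘ ch k 0 (N φ) (j + 1)) x := by
        funext ρ
        rw [Function.comp, ← h1]
      rw [h5]; exact h4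
  refine ⟨fun ρ => -N φ ρ, fun n => (h2 n).neg, fun ρ hρ => ?_⟩
  have h3 := ch_sub (k := k) (b := b) (continuous_const (y := (0 : ℝ))) (hN φ).neg (j + 1) ρ
  have h4 : 0 ≤ ch k 0 (N φ) (j + 1) ρ :=
    ch_nonneg (fun s _ => mul_nonneg (Real.exp_pos _).le (hG2 _)) _ _ hρ
  simp only [Pi.neg_apply, sub_neg_eq_add, zero_add] at h3
  have h5 : ch k b (fun ρ => -N φ ρ) (j + 1) ρ = P ρ + -ch k 0 (N φ) (j + 1) ρ := by
    rw [← h3, hPdef]; ring_nf; rfl
  rw [h5, Real.exp_add, ← hG1 _ h4, ← h1]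

theorem exists_sol (k : ℕ) (a : Fin (k + 1) → ℝ) : ∃ u, IsRadialSol (k + 1) a u := by
  set b : ℕ → ℝ := fun j => a ⟨k - j, by omega⟩ with hb
  obtain ⟨f, hf, h⟩ := exists_fixed k k b
  have key : ∀ i j, i + j = k + 1 → Δ^[i] (fun y : EuclideanSpace ℝ (Fin (2 * (k + 1))) =>
      ch k b f (k + 1) (‖y‖ ^ 2)) = fun y => ch k b f j (‖y‖ ^ 2) := by
    intro i
    induction i with
    | zero => intro j hj; rw [show j = k + 1 by omega]; rfl
    | succ i ih =>
      intro j hj
      rw [Function.iterate_succ_apply', ih (j + 1) (by omega)]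
      exact lap_inv (by simp) ((ch_contDiff (hf 1) j).of_le (by exact_mod_cast (by omega))) _
  refine ⟨fun y => ch k b f (k + 1) (‖y‖ ^ 2), ?_, fun x y hxy => by simp only [hxy],
    fun x => ?_, fun i => ?_⟩
  · exact ((ch_contDiff (hf (2 * (k + 1))) (k + 1)).of_le (by exact_mod_cast (by omega))).comp
      (contDiff_norm_sq ℝ)
  · rw [key (k + 1) 0 rfl]; exact h _ (by positivity)
  · rw [key i (k - i + 1) (by omega)]
    simp only [ch, inv, hb, norm_zero, ne_eq, OfNat.ofNat_ne_zero, not_false_eq_true, zero_pow,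
      intervalIntegral.integral_same, add_zero]
    congr 1; ext; simp only; omega

end Pool.Agent.P.MP_c8f9b2_an
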