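import Pool.Agent.P.MP_c8f9b2_an.ODE

open Filter Topology Set

namespace Pool.Agent.P.MP_c8f9b2_an

variable {n : ℕ} {w F v : ℝ → ℝ}

/-- comparison for the flux -/
lemma Step.F_le (h : Step n w F v) {g g' : ℝ → ℝ} (hg : ∀ r, HasDerivAt g (g' r) r) (hg0 : g 0 = 0)
    (hv : ∀ r > 0, r ^ n * v r ≤ g' r) {r : ℝ} (hr : 0 ≤ r) : F r ≤ g r := by
  have := le_of_deriv (h := fun r => g r - F r) (h' := fun r => g' r - r ^ n * v r) (R := 0)
    (ContinuousOn.sub (fun x _ => (hg x).continuousAt.continuousWithinAt) h.cF)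
    (fun x hx => (hg x).sub (h.dF x hx)) (fun x hx => sub_nonneg.2 (hv x hx)) hr
  simp only [hg0, h.F0] at this
  linarith

/-- comparison for the function -/
lemma Step.w_le (h : Step n w F v) {g g' : ℝ → ℝ} (hg : ∀ r ≥ 0, HasDerivAt g (g' r) r)
    (hv : ∀ r > 0, F r / r ^ n ≤ g' r) {r : ℝ} (hr : 0 ≤ r) : w r ≤ w 0 + (g r - g 0) := by
  have := le_of_deriv (h := fun r => g r - w r) (h' := fun r => g' r - F r / r ^ n) (R := 0)
    (ContinuousOn.sub (fun x hx => (hg x hx).continuousAt.continuousWithinAt) h.cw)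
    (fun x hx => (hg x hx.le).sub (h.dw x hx)) (fun x hx => sub_nonneg.2 (hv x hx)) hr
  linarith

lemma Step.dec (h : Step n w F v) (hv : ∀ r > 0, v r ≤ 0) {r : ℝ} (hr : 0 ≤ r) : w r ≤ w 0 := by
  have h1 : ∀ x ≥ 0, F x ≤ 0 := fun x hx => h.F_le (g := fun _ => 0) (g' := fun _ => 0)
    (fun x => hasDerivAt_const x 0) rfl
    (fun y hy => mul_nonpos_of_nonneg_of_nonpos (by positivity) (hv y hy)) hx
  simpa using h.w_le (g := fun _ => 0) (g' := fun _ => 0) (fun x _ => hasDerivAt_const x 0)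
    (fun x hx => div_nonpos_of_nonpos_of_nonneg (h1 x hx.le) (by positivity)) hr

lemma Step.quad (h : Step n w F v) (hv : ∀ r > 0, v r ≤ -1) {r : ℝ} (hr : 0 ≤ r) :
    w r ≤ w 0 - r ^ 2 / (2 * (n + 1)) := by
  have h1 : ∀ x ≥ 0, F x ≤ -(x ^ (n + 1) / (n + 1)) := fun x hx =>
    h.F_le (g := fun x => -(x ^ (n + 1) / (n + 1))) (g' := fun x => -(x ^ n))
      (fun x => by
        have := ((hasDerivAt_pow (n + 1) x).div_const ((n : ℝ) + 1)).neg
        have e : -(x ^ n) = -((((n + 1 : ℕ) : ℝ) * x ^ (n + 1 - 1)) / ((n : ℝ) + 1)) := by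
          rw [Nat.add_sub_cancel]; push_cast; field_simp
        rw [e]; exact this)
      (by simp) (fun y hy => by
        have := hv y hy
        have h2 : 0 < y ^ n := by positivity
        nlinarith) hx
  have := h.w_le (g := fun x => -(x ^ 2 / (2 * (n + 1)))) (g' := fun x => -(x / (n + 1)))
    (fun x _ => by
      have := ((hasDerivAt_pow 2 x).div_const (2 * ((n : ℝ) + 1))).neg
      have e : -(x / (n + 1)) = -((((2 : ℕ) : ℝ) * x ^ (2 - 1)) / (2 * ((n : ℝ) + 1))) := by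
        norm_num; field_simp
      rw [e]; exact this)
    (fun x hx => by
      rw [div_le_iff₀ (by positivity)]
      refine (h1 x hx.le).trans_eq ?_
      field_simp; ring) hr
  norm_num at this ⊢
  linarith

lemma hasDerivAt_frac (B : ℝ) {x : ℝ} (hx : 0 ≤ x) :
    HasDerivAt (fun x => -(B * (1 + x)⁻¹)) (B / (1 + x) ^ 2) x := by
  have := ((((hasDerivAt_id' x).const_add 1).inv (by positivity)).const_mul B).neg
  have e : B / (1 + x) ^ 2 = -(B * (-1 / (1 + x) ^ 2)) := by ring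
  rw [e]; exact this

lemma Step.w_le_frac (h : Step n w F v) {B : ℝ} (hB : 0 ≤ B)
    (hv : ∀ r > 0, F r * (1 + r) ^ 2 ≤ B * r ^ n) {r : ℝ} (hr : 0 ≤ r) : w r ≤ w 0 + B := by
  have := h.w_le (fun x hx => hasDerivAt_frac B hx) (fun x hx => by
    rw [div_le_div_iff₀ (by positivity) (by positivity)]; exact hv x hx) hr
  have h2 : 0 ≤ B * (1 + r)⁻¹ := by positivity
  simp only [add_zero, inv_one, mul_one] at this
  linarith

lemma exists_gauss_bound (n : ℕ) : ∃ D > 0, ∀ r : ℝ, 0 ≤ r →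
    r ^ n * Real.exp (-(r ^ 2 / (2 * (n + 1)))) * (1 + r) ^ 2 ≤ D := by
  set b : ℝ := 2 * (n + 1) with hb
  have hb0 : 0 < b := by positivity
  refine ⟨4 + 4 * (((n + 2).factorial : ℝ) * b ^ (n + 2)), by positivity, fun r hr => ?_⟩
  have he : Real.exp (-(r ^ 2 / b)) ≤ 1 := Real.exp_le_one_iff.2 (by
    have : 0 ≤ r ^ 2 / b := by positivity
    linarith)
  have h0 : 0 ≤ ((n + 2).factorial : ℝ) * b ^ (n + 2) := by positivity
  rcases le_total r 1 with h | h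
  · have h1 : r ^ n ≤ 1 := pow_le_one₀ hr h
    have h2 : (1 + r) ^ 2 ≤ 4 := by nlinarith
    have h3 : r ^ n * Real.exp (-(r ^ 2 / b)) * (1 + r) ^ 2 ≤ 1 * 1 * 4 := by gcongr
    linarith
  · have h1 := Real.pow_div_factorial_le_exp (r ^ 2 / b) (by positivity) (n + 2)
    have h2 : (1 + r) ^ 2 ≤ 4 * r ^ 2 := by nlinarith
    have h3 : r ^ (n + 2) ≤ (r ^ 2) ^ (n + 2) := pow_le_pow_left₀ hr (by nlinarith) _
    have h4 : (r ^ 2) ^ (n + 2) * Real.exp (-(r ^ 2 / b)) ≤ (n + 2).factorial * b ^ (n + 2) := by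
      rw [Real.exp_neg, ← div_eq_mul_inv, div_le_iff₀ (Real.exp_pos _)]
      rw [div_pow, div_div, div_le_iff₀ (by positivity)] at h1
      linarith
    have h5 := Real.exp_pos (-(r ^ 2 / b))
    calc _ ≤ r ^ n * Real.exp (-(r ^ 2 / b)) * (4 * r ^ 2) := by gcongr
      _ = 4 * (r ^ (n + 2) * Real.exp (-(r ^ 2 / b))) := by ring
      _ ≤ 4 * ((r ^ 2) ^ (n + 2) * Real.exp (-(r ^ 2 / b))) := by gcongr
      _ ≤ _ := by linarith

namespace Sys
variable {m : ℕ} {w F : ℕ → ℝ → ℝ} (h : Sys (m + 3) w F)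
include h

lemma decay (h0 : ∀ i, 1 ≤ i → i ≤ m + 1 → w i 0 = -2) (h1 : ∀ r ≥ 0, w (m + 1) r ≤ -1)
    {r : ℝ} (hr : 0 ≤ r) : w 0 r ≤ w 0 0 - r ^ 2 / (2 * ((2 * m + 5 : ℕ) + 1)) := by
  have key : ∀ k j, j + 1 + k = m + 1 → ∀ r ≥ 0, w (j + 1) r ≤ -1 := by
    intro k
    induction k with
    | zero => intro j hj; rw [show j + 1 = m + 1 by omega]; exact h1
    | succ k ih =>
      intro j hj r hr
      have h2 := (h.step (j + 1) (by omega)).dec
        (fun x hx => by linarith [ih (j + 1) (by omega) x hx.le]) hr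
      rw [h0 _ (by omega) (by omega)] at h2; linarith
  exact (h.step 0 (by omega)).quad (fun x hx => key m 0 (by omega) x hx.le) hr

lemma small {D : ℝ} (hD0 : 0 < D) (hD : ∀ r : ℝ, 0 ≤ r → r ^ (2 * m + 5) *
      Real.exp (-(r ^ 2 / (2 * ((2 * m + 5 : ℕ) + 1)))) * (1 + r) ^ 2 ≤ D)
    (h0 : ∀ i, 1 ≤ i → i ≤ m + 1 → w i 0 = -2) (h1 : ∀ r ≥ 0, w (m + 1) r ≤ -1) :
    (∀ r ≥ 0, -F (m + 2) r ≤ Real.exp (w 0 0) * D) ∧
      ∀ r ≥ 0, w (m + 2) 0 - Real.exp (w 0 0) * (4 * (1 + D)) ≤ w (m + 2) r := by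
  set E := Real.exp (w 0 0) with hE
  have hE0 : 0 < E := Real.exp_pos _
  have hs : Step (2 * m + 5) (w (m + 2)) (F (m + 2)) (w (m + 3)) := h.step (m + 2) (by omega)
  have h2 : ∀ r ≥ 0, Real.exp (w 0 r) ≤
      E * Real.exp (-(r ^ 2 / (2 * ((2 * m + 5 : ℕ) + 1)))) := by
    intro r hr
    rw [hE, ← Real.exp_add]
    exact Real.exp_le_exp.2 (by linarith [h.decay h0 h1 hr])
  have h3 : ∀ r ≥ 0, -F (m + 2) r ≤ E * D := by
    intro r hr
    have := le_of_deriv (h := fun r => -(E * D * (1 + r)⁻¹) + F (m + 2) r)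
      (h' := fun r => E * D / (1 + r) ^ 2 + r ^ (2 * m + 5) * w (m + 3) r) (R := 0)
      (ContinuousOn.add (fun x hx => (hasDerivAt_frac _ hx).continuousAt.continuousWithinAt) hs.cF)
      (fun x hx => (hasDerivAt_frac _ hx.le).add (hs.dF x hx)) (fun x hx => by
        rw [h.top, mul_neg, ← sub_eq_add_neg, sub_nonneg, le_div_iff₀ (by positivity)]
        have h4 := h2 x hx.le
        calc _ ≤ x ^ (2 * m + 5) * (E * Real.exp (-(x ^ 2 / (2 * ((2 * m + 5 : ℕ) + 1))))) *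
              (1 + x) ^ 2 := by gcongr
          _ = E * (x ^ (2 * m + 5) * Real.exp (-(x ^ 2 / (2 * ((2 * m + 5 : ℕ) + 1)))) *
              (1 + x) ^ 2) := by ring
          _ ≤ E * D := by gcongr; exact hD x hx.le) hr
    have h5 : 0 ≤ E * D * (1 + r)⁻¹ := by positivity
    simp only [hs.F0, add_zero, inv_one, mul_one] at this
    linarith
  have h4 : ∀ r ≥ 0, -F (m + 2) r ≤ E * r ^ (2 * m + 5 + 1) := fun r hr =>
    hs.neg.F_le (g := fun x => E * x ^ (2 * m + 5 + 1))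
      (fun x => (hasDerivAt_pow (2 * m + 5 + 1) x).const_mul E) (by simp) (fun x hx => by
        rw [h.top, neg_neg]
        have h5 : Real.exp (w 0 x) ≤ E := (h2 x hx.le).trans (mul_le_of_le_one_right hE0.le
          (Real.exp_le_one_iff.2 (by
            have : 0 ≤ x ^ 2 / (2 * (((2 * m + 5 : ℕ) : ℝ) + 1)) := by positivity
            linarith)))
        have h6 : (1 : ℝ) ≤ ((2 * m + 5 + 1 : ℕ) : ℝ) := by exact_mod_cast (by omega)
        have h7 : 0 < x ^ (2 * m + 5) := by positivity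
        simp only [Nat.add_sub_cancel]
        nlinarith [mul_le_mul_of_nonneg_left h5 h7.le, mul_pos hE0 h7]) hr
  refine ⟨h3, fun r hr => ?_⟩
  have := hs.neg.w_le_frac (B := E * (4 * (1 + D))) (by positivity) (fun x hx => by
    have h7 : 0 < x ^ (2 * m + 5) := by positivity
    rcases le_total x 1 with hx1 | hx1
    · have h5 : (1 + x) ^ 2 ≤ 4 := by nlinarith
      have h6 : x ^ (2 * m + 5 + 1) ≤ x ^ (2 * m + 5) := by
        rw [pow_succ]; exact mul_le_of_le_one_right h7.le hx1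
      calc _ ≤ E * x ^ (2 * m + 5 + 1) * (1 + x) ^ 2 := by gcongr; exact h4 x hx.le
        _ ≤ E * x ^ (2 * m + 5) * 4 := by gcongr
        _ ≤ _ := by nlinarith [mul_pos (mul_pos hE0 hD0) h7]
    · have h5 : (1 + x) ^ 2 ≤ 4 * x ^ (2 * m + 5) := by
        have : x ^ 2 ≤ x ^ (2 * m + 5) := pow_le_pow_right₀ hx1 (by omega)
        nlinarith
      calc _ ≤ E * D * (1 + x) ^ 2 := by gcongr; exact h3 x hx.le
        _ ≤ E * D * (4 * x ^ (2 * m + 5)) := by gcongr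
        _ ≤ _ := by nlinarith [mul_pos hE0 h7]) hr
  linarith

lemma top_nonpos (h0 : w (m + 1) 0 = -2) (hτ : w (m + 2) 0 ≤ 0) : ∀ r ≥ 0, w (m + 1) r ≤ -1 := by
  intro r hr
  have h1 : ∀ x > 0, w (m + 2) x ≤ 0 := fun x hx => ((h.step (m + 2) (by omega)).dec
    (fun y _ => by rw [h.top]; linarith [Real.exp_pos (w 0 y)]) hx.le).trans hτ
  linarith [(h.step (m + 1) (by omega)).dec h1 hr]

lemma mass_le_one (h0 : w (m + 1) 0 = -2) (hτ : w (m + 2) 0 ≤ 1)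
    (hM : ∀ r ≥ 0, -F (m + 2) r ≤ 1) : ∀ r ≥ 0, w (m + 1) r ≤ -1 := by
  have hs : Step (2 * m + 5) (w (m + 2)) (F (m + 2)) (w (m + 3)) := h.step (m + 2) (by omega)
  have hs' : Step (2 * m + 5) (w (m + 1)) (F (m + 1)) (w (m + 2)) := h.step (m + 1) (by omega)
  have h1 : ∀ x > 0, w (m + 2) x ≤ 1 := fun x hx => (hs.dec
    (fun y _ => by rw [h.top]; linarith [Real.exp_pos (w 0 y)]) hx.le).trans hτ
  have hm : (0 : ℝ) ≤ m := Nat.cast_nonneg m
  have h2 : ∀ x > 0, w (m + 2) x ≤ (2 * m + 4 : ℝ)⁻¹ * (x ^ (2 * m + 4))⁻¹ := by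
    intro r0 hr0
    by_contra hlt
    push Not at hlt
    refine h.not_pos (j := m + 2) (by omega) ⟨_, sub_pos.2 hlt, ?_⟩
    filter_upwards [eventually_ge_atTop r0] with r hr
    have := le_of_deriv' (h := fun x => w (m + 2) x - (2 * m + 4 : ℝ)⁻¹ * (x ^ (2 * m + 4))⁻¹)
      (fun x hx => (hs.dw x (by linarith)).sub (((hasDerivAt_pow (2 * m + 4) x).inv
        (pow_ne_zero _ (by linarith))).const_mul _)) (fun x hx => by
        have hx0 : 0 < x := by linarith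
        have e : F (m + 2) x / x ^ (2 * m + 5) - (2 * m + 4 : ℝ)⁻¹ *
            (-(((2 * m + 4 : ℕ) : ℝ) * x ^ (2 * m + 4 - 1)) / (x ^ (2 * m + 4)) ^ 2) =
            (F (m + 2) x + 1) / x ^ (2 * m + 5) := by
          rw [show 2 * m + 4 - 1 = 2 * m + 3 by omega]
          push_cast; field_simp; ring
        rw [e]
        exact div_nonneg (by linarith [hM x hx0.le]) (by positivity)) hr
    have h3 : 0 ≤ (2 * m + 4 : ℝ)⁻¹ * (r ^ (2 * m + 4))⁻¹ := by
      have : 0 < r := by linarith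
      positivity
    linarith
  have h3 : ∀ x ≥ 0, F (m + 1) x ≤ (2 * m + 6 : ℝ)⁻¹ * x ^ (2 * m + 6) := fun x hx =>
    hs'.F_le (fun y => (hasDerivAt_pow (2 * m + 6) y).const_mul _) (by simp) (fun y hy => by
      have h4 : 0 < y ^ (2 * m + 5) := by positivity
      have e : (2 * m + 6 : ℝ)⁻¹ * (((2 * m + 6 : ℕ) : ℝ) * y ^ (2 * m + 6 - 1)) =
          y ^ (2 * m + 5) := by
        rw [show 2 * m + 6 - 1 = 2 * m + 5 by omega]
        push_cast; field_simp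
      rw [e]; nlinarith [h1 y hy]) hx
  have h4 : ∀ x ≥ 0, F (m + 1) x ≤ 8⁻¹ * x ^ 2 := fun x hx =>
    hs'.F_le (fun y => (hasDerivAt_pow 2 y).const_mul _) (by simp) (fun y hy => by
      have h5 : 0 < y ^ (2 * m + 5) := by positivity
      have h6 : (2 * m + 4 : ℝ)⁻¹ ≤ 4⁻¹ := inv_anti₀ (by norm_num) (by linarith)
      calc _ ≤ y ^ (2 * m + 5) * ((2 * m + 4 : ℝ)⁻¹ * (y ^ (2 * m + 4))⁻¹) := by
            gcongr; exact h2 y hy
        _ = (2 * m + 4 : ℝ)⁻¹ * y := by field_simp; ring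
        _ ≤ 4⁻¹ * y := by gcongr
        _ = _ := by norm_num; ring) hx
  intro r hr
  have := hs'.w_le_frac (B := 1) zero_le_one (fun x hx => by
    have h7 : 0 < x ^ (2 * m + 5) := by positivity
    rcases le_total x 1 with hx1 | hx1
    · have h5 : (1 + x) ^ 2 ≤ 4 := by nlinarith
      have h6 : x ^ (2 * m + 6) ≤ x ^ (2 * m + 5) := by
        rw [pow_succ]; exact mul_le_of_le_one_right h7.le hx1
      have h8 : (2 * m + 6 : ℝ)⁻¹ ≤ 6⁻¹ := inv_anti₀ (by norm_num) (by linarith)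
      calc _ ≤ (2 * m + 6 : ℝ)⁻¹ * x ^ (2 * m + 6) * (1 + x) ^ 2 := by gcongr; exact h3 x hx.le
        _ ≤ 6⁻¹ * x ^ (2 * m + 5) * 4 := by gcongr
        _ ≤ _ := by linarith
    · have h5 : (1 + x) ^ 2 ≤ 4 * x ^ 2 := by nlinarith
      have h6 : x ^ 4 ≤ x ^ (2 * m + 5) := pow_le_pow_right₀ hx1 (by omega)
      calc _ ≤ 8⁻¹ * x ^ 2 * (1 + x) ^ 2 := by gcongr; exact h4 x hx.le
        _ ≤ 8⁻¹ * x ^ 2 * (4 * x ^ 2) := by gcongr
        _ ≤ _ := by nlinarith) hr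
  linarith

end Sys

/-- the gap in the values of the mass -/
theorem exists_gap (m : ℕ) : ∃ K : ℝ, ∀ w F : ℕ → ℝ → ℝ, Sys (m + 3) w F → w 0 0 = K →
    (∀ i, 1 ≤ i → i ≤ m + 1 → w i 0 = -2) →
    ((w (m + 2) 0 ≤ 0 ∨ (w (m + 2) 0 ≤ 1 ∧ ∀ r ≥ 0, -F (m + 2) r ≤ 1)) →
      (∀ r ≥ 0, -F (m + 2) r ≤ 1 / 2) ∧ w (m + 2) 0 < 1) := by
  obtain ⟨D, hD0, hD⟩ := exists_gauss_bound (2 * m + 5)
  refine ⟨Real.log (8 * (1 + D))⁻¹, fun w F h hK h0 hyp => ?_⟩
  have h1 : ∀ r ≥ 0, w (m + 1) r ≤ -1 := by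
    rcases hyp with h1 | h1
    · exact h.top_nonpos (h0 _ (by omega) le_rfl) h1
    · exact h.mass_le_one (h0 _ (by omega) le_rfl) h1.1 h1.2
  obtain ⟨h2, h3⟩ := h.small hD0 hD h0 h1
  rw [hK, Real.exp_log (by positivity)] at h2 h3
  have e1 : (8 * (1 + D))⁻¹ * (4 * (1 + D)) = 1 / 2 := by field_simp; norm_num
  have e2 : (8 * (1 + D))⁻¹ * D ≤ 1 / 2 := by
    rw [← e1]; gcongr; linarith
  refine ⟨fun r hr => (h2 r hr).trans e2, ?_⟩
  by_contra hge
  push Not at hge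
  refine h.not_pos (j := m + 2) (by omega) ⟨1 / 2, by norm_num, ?_⟩
  filter_upwards [eventually_ge_atTop 0] with r hr
  linarith [h3 r hr]

end Pool.Agent.P.MP_c8f9b2_an
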