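import Mathlib

open Filter Topology Set

namespace Pool.Agent.P.MP_c8f9b2_an

/-- v is the radial Laplacian of w in dimension n + 1, with flux F -/
structure Step (n : ℕ) (w F v : ℝ → ℝ) : Prop where
  cw : ContinuousOn w (Ici 0)
  cF : ContinuousOn F (Ici 0)
  F0 : F 0 = 0
  dw : ∀ r > 0, HasDerivAt w (F r / r ^ n) r
  dF : ∀ r > 0, HasDerivAt F (r ^ n * v r) r

lemma Step.neg {n : ℕ} {w F v : ℝ → ℝ} (h : Step n w F v) :
    Step n (fun r => -w r) (fun r => -F r) (fun r => -v r) where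
  cw := h.cw.neg
  cF := h.cF.neg
  F0 := by simp [h.F0]
  dw r hr := by rw [neg_div]; exact (h.dw r hr).neg
  dF r hr := by rw [mul_neg]; exact (h.dF r hr).neg

lemma le_of_deriv {h h' : ℝ → ℝ} {R : ℝ} (hc : ContinuousOn h (Ici R))
    (hd : ∀ r > R, HasDerivAt h (h' r) r) (hp : ∀ r > R, 0 ≤ h' r) {r : ℝ} (hr : R ≤ r) :
    h R ≤ h r := by
  refine monotoneOn_of_deriv_nonneg (convex_Ici R) hc ?_ ?_ self_mem_Ici hr hr
  · rw [interior_Ici]; exact fun x hx => (hd x hx).differentiableAt.differentiableWithinAt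
  · rw [interior_Ici]; intro x hx; rw [(hd x hx).deriv]; exact hp x hx

lemma le_of_deriv' {h h' : ℝ → ℝ} {R : ℝ}
    (hd : ∀ r ≥ R, HasDerivAt h (h' r) r) (hp : ∀ r > R, 0 ≤ h' r) {r : ℝ} (hr : R ≤ r) :
    h R ≤ h r :=
  le_of_deriv (fun x hx => (hd x hx).continuousAt.continuousWithinAt) (fun x hx => hd x hx.le) hp hr

def EvPos (w : ℝ → ℝ) : Prop := ∃ c > 0, ∀ᶠ r in atTop, c ≤ w r
def Big (p : ℕ) (v : ℝ → ℝ) : Prop := ∀ A : ℝ, ∀ᶠ r in atTop, A ≤ v r * r ^ p
def BigF (e : ℕ) (F : ℝ → ℝ) : Prop := ∀ A : ℝ, ∀ᶠ r in atTop, A * r ^ e ≤ F r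

lemma exists_pos_of_eventually {p : ℝ → Prop} (h : ∀ᶠ r in atTop, p r) :
    ∃ R > 0, ∀ r ≥ R, p r := by
  obtain ⟨R, hR⟩ := eventually_atTop.1 h
  exact ⟨max R 1, by positivity, fun r hr => hR r ((le_max_left _ _).trans hr)⟩

lemma EvPos.big {v : ℝ → ℝ} (h : EvPos v) (p : ℕ) : Big (p + 1) v := by
  obtain ⟨c, hc, h⟩ := h
  intro A
  have h1 : Tendsto (fun r : ℝ => c * r ^ (p + 1)) atTop atTop :=
    (tendsto_pow_atTop (Nat.succ_ne_zero p)).const_mul_atTop hc
  filter_upwards [h, h1.eventually_ge_atTop A, eventually_ge_atTop 0] with r h2 h3 h4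
  exact h3.trans (mul_le_mul_of_nonneg_right h2 (by positivity))

variable {n : ℕ} {w F v : ℝ → ℝ}

lemma Step.bigF (h : Step n w F v) {p d : ℕ} (hn : n = p + d) (hv : Big p v) : BigF (d + 1) F := by
  intro A
  obtain ⟨R, hR, h1⟩ := exists_pos_of_eventually (hv ((A + 1) * (d + 1)))
  have h2 : ∀ r ≥ R, F R - (A + 1) * R ^ (d + 1) ≤ F r - (A + 1) * r ^ (d + 1) := by
    intro r hr
    refine le_of_deriv' (h := fun r => F r - (A + 1) * r ^ (d + 1))
      (h' := fun r => r ^ n * v r - (A + 1) * (((d + 1 : ℕ) : ℝ) * r ^ d)) (fun x hx => ?_)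
      (fun x hx => ?_) hr
    · exact (h.dF x (by linarith)).sub ((hasDerivAt_pow (d + 1) x).const_mul _)
    · have h3 := h1 x hx.le
      have h4 : 0 ≤ x ^ d := pow_nonneg (by linarith) d
      rw [hn, pow_add]; push_cast
      nlinarith
  have h3 : Tendsto (fun r : ℝ => r ^ (d + 1)) atTop atTop := tendsto_pow_atTop (Nat.succ_ne_zero d)
  filter_upwards [h3.eventually_ge_atTop (-(F R - (A + 1) * R ^ (d + 1))), eventually_ge_atTop R]
    with r h4 h5
  have := h2 r h5
  linarith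

lemma Step.big (h : Step n w F v) {e k : ℕ} (hn : n = e + (k + 1) + 1) (hF : BigF e F)
    (hw : ¬ EvPos w) : Big (k + 1) fun r => -w r := by
  intro A
  obtain ⟨R, hR, h1⟩ := exists_pos_of_eventually (hF (A * (k + 1)))
  have h2 : ∀ r0 ≥ R, ∀ r ≥ r0, w r0 + A * (r0 ^ (k + 1))⁻¹ ≤ w r + A * (r ^ (k + 1))⁻¹ := by
    intro r0 hr0 r hr
    refine le_of_deriv' (h := fun r => w r + A * (r ^ (k + 1))⁻¹)
      (h' := fun r => F r / r ^ n + A * (-(((k + 1 : ℕ) : ℝ) * r ^ k) / (r ^ (k + 1)) ^ 2))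
      (fun x hx => ?_) (fun x hx => ?_) hr
    · have hx0 : 0 < x := by linarith
      exact (h.dw x hx0).add (((hasDerivAt_pow (k + 1) x).inv (by positivity)).const_mul _)
    · have hx0 : 0 < x := by linarith
      have h3 := h1 x (by linarith)
      have e : F x / x ^ n + A * (-(((k + 1 : ℕ) : ℝ) * x ^ k) / (x ^ (k + 1)) ^ 2) =
          (F x - A * (k + 1) * x ^ e) / x ^ n := by
        rw [hn]; push_cast; field_simp; ring
      rw [e]
      exact div_nonneg (by linarith) (by positivity)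
  filter_upwards [eventually_ge_atTop R] with r0 hr0
  have hr0' : 0 < r0 := by linarith
  by_contra hlt
  push Not at hlt
  have h3 : 0 < w r0 + A * (r0 ^ (k + 1))⁻¹ := by
    have : w r0 + A * (r0 ^ (k + 1))⁻¹ = (w r0 * r0 ^ (k + 1) + A) / r0 ^ (k + 1) := by
      field_simp
    rw [this]
    exact div_pos (by linarith) (by positivity)
  refine hw ⟨_, half_pos h3, ?_⟩
  have h4 : Tendsto (fun r : ℝ => A * (r ^ (k + 1))⁻¹) atTop (𝓝 (A * 0)) :=
    (tendsto_pow_atTop (Nat.succ_ne_zero k)).inv_tendsto_atTop.const_mul A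
  rw [mul_zero] at h4
  filter_upwards [h4.eventually (Iic_mem_nhds (half_pos h3)), eventually_ge_atTop r0] with r h5 h6
  have := h2 r0 hr0 r h6
  linarith

lemma Step.evPos (h : Step n w F v) (hn : 1 ≤ n) (hv : EvPos v) : EvPos w := by
  obtain ⟨d, hd⟩ : ∃ d, n = 0 + 1 + d := ⟨n - 1, by omega⟩
  obtain ⟨R, hR, h1⟩ := exists_pos_of_eventually (h.bigF hd (hv.big 0) 1)
  have h2 : ∀ r ≥ R, w R - R ≤ w r - r := by
    intro r hr
    refine le_of_deriv' (h := fun r => w r - r) (h' := fun r => F r / r ^ n - 1)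
      (fun x hx => (h.dw x (by linarith)).sub (hasDerivAt_id x)) (fun x hx => ?_) hr
    have hx0 : 0 < x := by linarith
    have h3 := h1 x hx.le
    rw [sub_nonneg, le_div_iff₀ (by positivity), hd]
    rwa [show 0 + 1 + d = d + 1 by ring]
  refine ⟨1, one_pos, ?_⟩
  filter_upwards [eventually_ge_atTop R, eventually_ge_atTop (1 - (w R - R))] with r h3 h4
  have := h2 r h3
  linarith

lemma Step.exp_evPos (h : Step n w F v) {e : ℕ} (hF : BigF e F) :
    EvPos fun r => Real.exp (w r) := by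
  obtain ⟨R, hR, h1⟩ := exists_pos_of_eventually (hF 0)
  refine ⟨Real.exp (w R), Real.exp_pos _, ?_⟩
  filter_upwards [eventually_ge_atTop R] with r hr
  refine Real.exp_le_exp.2 (le_of_deriv' (fun x hx => h.dw x (by linarith)) (fun x hx => ?_) hr)
  have hx0 : 0 < x := by linarith
  exact div_nonneg (by simpa using h1 x hx.le) (by positivity)

lemma Step.fin (h : Step n w F v) {e : ℕ} (hn : n = e + 1) (hF : BigF e fun r => -F r)
    {M : ℝ → ℝ} (hM : ∀ r > 0, HasDerivAt M (r ^ n * Real.exp (w r)) r) :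
    ∃ B, ∀ᶠ r in atTop, M r ≤ B := by
  obtain ⟨R, hR, h1⟩ := exists_pos_of_eventually (hF ((n + 2 : ℕ) : ℝ))
  set A : ℝ := ((n + 2 : ℕ) : ℝ) with hA
  have h2 : ∀ r ≥ R, -w R - A * Real.log R ≤ -w r - A * Real.log r := by
    intro r hr
    refine le_of_deriv' (h := fun r => -w r - A * Real.log r)
      (h' := fun r => -(F r / r ^ n) - A * r⁻¹) (fun x hx => ?_) (fun x hx => ?_) hr
    · have hx0 : 0 < x := by linarith
      exact (h.dw x hx0).neg.sub ((Real.hasDerivAt_log hx0.ne').const_mul A)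
    · have hx0 : 0 < x := by linarith
      have h3 := h1 x hx.le
      have e1 : -(F x / x ^ n) - A * x⁻¹ = (-F x - A * x ^ e) / x ^ n := by
        rw [hn]; field_simp; ring
      rw [e1]
      exact div_nonneg (by linarith) (by positivity)
  set B := Real.exp (w R + A * Real.log R) with hB
  have h3 : ∀ r ≥ R, r ^ n * Real.exp (w r) ≤ B / r ^ 2 := by
    intro r hr
    have hr0 : 0 < r := by linarith
    have h4 : Real.exp (w r + A * Real.log r) ≤ B := Real.exp_le_exp.2 (by linarith [h2 r hr])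
    rw [Real.exp_add, hA, Real.exp_nat_mul, Real.exp_log hr0] at h4
    rw [le_div_iff₀ (by positivity)]
    calc _ = Real.exp (w r) * r ^ (n + 2) := by ring
      _ ≤ B := h4
  refine ⟨M R + B * R⁻¹, ?_⟩
  filter_upwards [eventually_ge_atTop R] with r hr
  have h4 : -M R - B * R⁻¹ ≤ -M r - B * r⁻¹ := by
    refine le_of_deriv' (h := fun r => -M r - B * r⁻¹)
      (h' := fun r => -(r ^ n * Real.exp (w r)) - B * (-(r ^ 2)⁻¹)) (fun x hx => ?_)
      (fun x hx => ?_) hr
    · have hx0 : 0 < x := by linarith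
      exact (hM x hx0).neg.sub ((hasDerivAt_inv hx0.ne').const_mul B)
    · have := h3 x hx.le
      rw [div_eq_mul_inv] at this
      linarith
  have h5 : 0 ≤ B * r⁻¹ := mul_nonneg (Real.exp_pos _).le (inv_nonneg.2 (by linarith))
  linarith

/-- the radial system for the m-th power of the Laplacian in dimension 2m -/
structure Sys (m : ℕ) (w F : ℕ → ℝ → ℝ) : Prop where
  step : ∀ i < m, Step (2 * m - 1) (w i) (F i) (w (i + 1))
  top : ∀ r, w m r = -Real.exp (w 0 r)

namespace Sys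
variable {m : ℕ} {w F : ℕ → ℝ → ℝ} (h : Sys m w F)
include h

lemma down_pos {i j : ℕ} (hij : i ≤ j) (hj : j ≤ m) (hp : EvPos (w j)) : EvPos (w i) := by
  induction j, hij using Nat.le_induction with
  | base => exact hp
  | succ j hij ih => exact ih (by omega) ((h.step j (by omega)).evPos (by omega) hp)

lemma down_neg {i j : ℕ} (hij : i ≤ j) (hj : j ≤ m) (hp : EvPos fun r => -w j r) :
    EvPos fun r => -w i r := by
  induction j, hij using Nat.le_induction with
  | base => exact hp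
  | succ j hij ih => exact ih (by omega) ((h.step j (by omega)).neg.evPos (by omega) hp)

lemma not_pos {j : ℕ} (hj : j ≤ m) : ¬ EvPos (w j) := by
  intro hp
  obtain ⟨c, hc, h1⟩ := h.down_pos (Nat.zero_le j) hj hp
  have h2 : EvPos fun r => -w m r := ⟨1, one_pos, h1.mono fun r hr => by
    simp only [h.top, neg_neg]; exact Real.one_le_exp (by linarith)⟩
  obtain ⟨c', hc', h3⟩ := h.down_neg hj le_rfl h2
  obtain ⟨c'', hc'', h4⟩ := hp
  obtain ⟨r, h5, h6⟩ := (h3.and h4).exists
  linarith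

lemma dM (hm : 1 ≤ m) : ∀ r > 0, HasDerivAt (fun r => -F (m - 1) r)
    (r ^ (2 * m - 1) * Real.exp (w 0 r)) r := by
  intro r hr
  have := ((h.step (m - 1) (by omega)).dF r hr).neg
  rw [show m - 1 + 1 = m by omega, h.top, mul_neg, neg_neg] at this
  exact this

lemma M_mono (hm : 1 ≤ m) {r s : ℝ} (hr : 0 ≤ r) (hrs : r ≤ s) : -F (m - 1) r ≤ -F (m - 1) s :=
  le_of_deriv (h := fun r => -F (m - 1) r)
    ((h.step (m - 1) (by omega)).cF.neg.mono (Ici_subset_Ici.2 hr))
    (fun x hx => h.dM hm x (by linarith))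
    (fun x hx => mul_nonneg (pow_nonneg (by linarith) _) (Real.exp_pos _).le) hrs

theorem M_bdd (hm : 2 ≤ m) : ∃ B, ∀ r ≥ 0, -F (m - 1) r ≤ B := by
  by_contra hcon
  push Not at hcon
  have hM : BigF 0 fun r => -F (m - 1) r := by
    intro A
    obtain ⟨r0, hr0, h1⟩ := hcon A
    filter_upwards [eventually_ge_atTop r0] with r hr
    have := h.M_mono (by omega) hr0 hr
    simp only [pow_zero, mul_one]; linarith
  have hfin : ¬ Big 2 fun r => -w 1 r := by
    intro hb
    have h0 := h.step 0 (by omega)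
    obtain ⟨B, hB⟩ := h0.fin (e := 2 * m - 3 + 1) (by omega)
      (h0.neg.bigF (p := 2) (d := 2 * m - 3) (by omega) hb) (h.dM (by omega))
    obtain ⟨r, h1, h2⟩ := (hB.and (hM (B + 1))).exists
    simp only [pow_zero, mul_one] at h2; linarith
  have hneg : ∀ j, 1 ≤ j → j ≤ m → ¬ EvPos fun r => -w j r := fun j h1 h2 hp =>
    hfin ((h.down_neg h1 h2 hp).big 1)
  have key : ∀ k j, j + 1 + k + 1 = m →
      Big (2 * j + 1 + 1) (w (j + 1)) ∨ Big (2 * j + 1 + 1) fun r => -w (j + 1) r := by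
    intro k
    induction k with
    | zero =>
      intro j hj
      left
      have e : m - 1 = j + 1 := by omega
      rw [e] at hM
      simpa using (h.step (j + 1) (by omega)).neg.big (e := 0) (k := 2 * j + 1) (by omega) hM
        (hneg _ (by omega) (by omega))
    | succ k ih =>
      intro j hj
      have h0 := h.step (j + 1) (by omega)
      rcases ih (j + 1) (by omega) with h1 | h1
      · right
        exact h0.big (k := 2 * j + 1) (by omega)
          (h0.bigF (d := 2 * k + 1) (by omega) h1) (h.not_pos (by omega))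
      · left
        simpa using h0.neg.big (k := 2 * j + 1) (by omega)
          (h0.neg.bigF (d := 2 * k + 1) (by omega) h1) (hneg _ (by omega) (by omega))
  rcases key (m - 2) 0 (by omega) with h1 | h1
  · have h0 := h.step 0 (by omega)
    have h2 := h0.exp_evPos (h0.bigF (d := 2 * m - 3) (by omega) h1)
    refine hneg m (by omega) le_rfl ?_
    simpa [h.top] using h2
  · exact hfin h1

end Sys

end Pool.Agent.P.MP_c8f9b2_an
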