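import Pool.Agent.P.MP_c8f9b2_an.Gap
import Pool.Agent.P.MP_c8f9b2_an.Defs

open Filter Topology Set Laplacian InnerProductSpace MeasureTheory

namespace Pool.Agent.P.MP_c8f9b2_an

section general
variable {E : Type*} [NormedAddCommGroup E] [InnerProductSpace ℝ E] [FiniteDimensional ℝ E]

lemma contDiff_lap {k : ℕ} {u : E → ℝ} (hu : ContDiff ℝ (k + 2 : ℕ) u) : ContDiff ℝ k (Δ u) := by
  rw [laplacian_eq_iteratedFDeriv_stdOrthonormalBasis]
  refine ContDiff.sum fun i _ => ?_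
  have h1 : ContDiff ℝ k (iteratedFDeriv ℝ 2 u) := hu.iteratedFDeriv_right (by push_cast; rfl)
  exact (ContinuousMultilinearMap.apply ℝ (fun _ : Fin 2 => E) ℝ _).contDiff.comp h1

lemma lap_normsq {g g' : ℝ → ℝ} {g'' : ℝ} {x : E}
    (h1 : ∀ᶠ s in 𝓝 (‖x‖ ^ 2), HasDerivAt g (g' s) s) (h2 : HasDerivAt g' g'' (‖x‖ ^ 2)) :
    Δ (fun y : E => g (‖y‖ ^ 2)) x =
      4 * ‖x‖ ^ 2 * g'' + 2 * Module.finrank ℝ E * g' (‖x‖ ^ 2) := by
  have hc : ContinuousAt (fun y : E => ‖y‖ ^ 2) x := by fun_prop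
  have h3 : fderiv ℝ (fun y : E => g (‖y‖ ^ 2)) =ᶠ[𝓝 x]
      fun y => (2 * g' (‖y‖ ^ 2)) • innerSL ℝ y := by
    filter_upwards [hc.eventually h1] with y hy
    have := (hy.comp_hasFDerivAt y (hasStrictFDerivAt_norm_sq y).hasFDerivAt).fderiv
    refine Eq.trans this ?_
    ext v; simp; ring
  have h4 : HasFDerivAt (fun y : E => 2 * g' (‖y‖ ^ 2)) ((2 : ℝ) • (g'' • (2 • innerSL ℝ x))) x :=
    (h2.comp_hasFDerivAt x (hasStrictFDerivAt_norm_sq x).hasFDerivAt).const_mul 2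
  have h5 := (h4.smul (innerSL ℝ (E := E)).hasFDerivAt).fderiv
  rw [laplacian_eq_iteratedFDeriv_stdOrthonormalBasis]
  simp only [iteratedFDeriv_two_apply]
  rw [h3.fderiv_eq]
  have h6 : ∀ i, (fderiv ℝ (fun y : E => (2 * g' (‖y‖ ^ 2)) • innerSL ℝ y) x)
      (stdOrthonormalBasis ℝ E i) (stdOrthonormalBasis ℝ E i) =
      2 * g' (‖x‖ ^ 2) + 4 * g'' * inner ℝ x (stdOrthonormalBasis ℝ E i) ^ 2 := by
    intro i
    erw [h5]
    have h7 : ∀ a b : E, innerSL ℝ a b = inner ℝ a b := fun _ _ => rfl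
    simp only [add_apply, smul_apply,
      ContinuousLinearMap.smulRight_apply]
    erw [h7, h7]
    simp
    ring
  simp only [Matrix.cons_val_zero, Matrix.cons_val_one, h6, Finset.sum_add_distrib,
    ← Finset.mul_sum]
  rw [(stdOrthonormalBasis ℝ E).sum_sq_inner_left]
  simp
  ring

/-- radial functions -/
def Rad (u : E → ℝ) : Prop := ∀ x y, ‖x‖ = ‖y‖ → u x = u y

omit [FiniteDimensional ℝ E] in
lemma Rad.profile {u : E → ℝ} (hr : Rad u) (hu : ContDiff ℝ (2 : ℕ) u) {e : E} (he : ‖e‖ = 1) :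
    ∃ g : ℝ → ℝ, (∀ y, u y = g (‖y‖ ^ 2)) ∧ (∀ s > 0, HasDerivAt g (deriv g s) s) ∧
      ∀ s > 0, HasDerivAt (deriv g) (deriv (deriv g) s) s := by
  have hg : ∀ s > 0, ContDiffAt ℝ 2 (fun s : ℝ => u (√s • e)) s := fun s hs =>
    hu.contDiffAt.comp s ((Real.contDiffAt_sqrt hs.ne').smul contDiffAt_const)
  refine ⟨fun s => u (√s • e), fun y => hr _ _ (by simp [norm_smul, he]), fun s hs => ?_,
    fun s hs => ?_⟩
  · exact ((hg s hs).differentiableAt (by norm_num)).hasDerivAt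
  · exact (((hg s hs).derivWithin (m := 1) (by norm_num)).differentiableAt
      (by norm_num)).hasDerivAt

lemma Rad.lap_eq {u : E → ℝ} {g : ℝ → ℝ} (h0 : ∀ y, u y = g (‖y‖ ^ 2))
    (h1 : ∀ s > 0, HasDerivAt g (deriv g s) s)
    (h2 : ∀ s > 0, HasDerivAt (deriv g) (deriv (deriv g) s) s) {x : E} (hx : 0 < ‖x‖) :
    Δ u x = 4 * ‖x‖ ^ 2 * deriv (deriv g) (‖x‖ ^ 2) +
      2 * Module.finrank ℝ E * deriv g (‖x‖ ^ 2) := by
  rw [show u = fun y => g (‖y‖ ^ 2) from funext h0]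
  exact lap_normsq ((eventually_gt_nhds (by positivity)).mono h1) (h2 _ (by positivity))

lemma Rad.lap {u : E → ℝ} (hr : Rad u) (hu : ContDiff ℝ (2 : ℕ) u) {e : E} (he : ‖e‖ = 1) :
    Rad (Δ u) := by
  obtain ⟨g, h0, h1, h2⟩ := hr.profile hu he
  intro x y hxy
  rcases (norm_nonneg x).eq_or_lt with hx | hx
  · rw [norm_eq_zero.1 hx.symm, norm_eq_zero.1 (hxy.symm.trans hx.symm)]
  · rw [Rad.lap_eq h0 h1 h2 hx, Rad.lap_eq h0 h1 h2 (hxy ▸ hx), hxy]

lemma Rad.step {u : E → ℝ} (hr : Rad u) (hu : ContDiff ℝ (2 : ℕ) u) {e : E} (he : ‖e‖ = 1)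
    {n : ℕ} (hn : Module.finrank ℝ E = n + 1) :
    Step n (fun r => u (r • e)) (fun r => r ^ n * deriv (fun r : ℝ => u (r • e)) r)
      (fun r => Δ u (r • e)) ∨ n = 0 := by
  rcases Nat.eq_zero_or_pos n with hn0 | hn0
  · exact Or.inr hn0
  left
  obtain ⟨g, h0, h1, h2⟩ := hr.profile hu he
  have hw : ContDiff ℝ (2 : ℕ) (fun r : ℝ => u (r • e)) :=
    hu.comp (contDiff_id.smul contDiff_const)
  have hn2 : ∀ r : ℝ, ‖r • e‖ ^ 2 = r ^ 2 := fun r => by simp [norm_smul, he]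
  have hw2 : (fun r : ℝ => u (r • e)) = fun r => g (r ^ 2) := funext fun r => by rw [h0, hn2]
  refine ⟨hw.continuous.continuousOn, ?_, by simp [hn0.ne'], fun r hr0 => ?_, fun r hr0 => ?_⟩
  · exact ((continuous_pow n).mul (hw.continuous_deriv (by norm_num))).continuousOn
  · rw [mul_div_cancel_left₀ _ (by positivity)]
    exact (hw.differentiable (by norm_num) r).hasDerivAt
  · have h3 : (fun r => r ^ n * deriv (fun r : ℝ => u (r • e)) r) =ᶠ[𝓝 r]
        fun r => 2 * (r ^ (n + 1) * deriv g (r ^ 2)) := by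
      filter_upwards [eventually_gt_nhds hr0] with s hs
      rw [hw2]
      have := ((h1 (s ^ 2) (by positivity)).comp s (hasDerivAt_pow 2 s)).deriv
      erw [this]
      norm_num; ring
    refine HasDerivAt.congr_of_eventuallyEq ?_ h3
    have h4 := ((hasDerivAt_pow (n + 1) r).mul
      ((h2 (r ^ 2) (by positivity)).comp r (hasDerivAt_pow 2 r))).const_mul 2
    have h5 : 0 < ‖r • e‖ := by simp [norm_smul, he, hr0.ne']
    have e1 : r ^ n * Δ u (r • e) = 2 * (((n + 1 : ℕ) : ℝ) * r ^ (n + 1 - 1) * deriv g (r ^ 2) +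
        r ^ (n + 1) * (deriv (deriv g) (r ^ 2) * (((2 : ℕ) : ℝ) * r ^ (2 - 1)))) := by
      rw [Rad.lap_eq h0 h1 h2 h5, hn2, hn]
      simp
      ring
    rw [e1]; exact h4

end general

variable {m : ℕ} {a : Fin m → ℝ} {u : EuclideanSpace ℝ (Fin (2 * m)) → ℝ}

lemma IsRadialSol.iter (h : IsRadialSol m a u) {e : EuclideanSpace ℝ (Fin (2 * m))} (he : ‖e‖ = 1)
    (i k : ℕ) (hik : i + k = m) : ContDiff ℝ (2 * k : ℕ) (Δ^[i] u) ∧ Rad (Δ^[i] u) := by
  induction i generalizing k with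
  | zero => rw [show k = m by omega]; exact ⟨h.1, h.2.1⟩
  | succ i ih =>
    obtain ⟨h1, h2⟩ := ih (k + 1) (by omega)
    rw [Function.iterate_succ_apply']
    exact ⟨contDiff_lap h1, h2.lap (h1.of_le (by exact_mod_cast (by omega))) he⟩

lemma IsRadialSol.sys (h : IsRadialSol m a u) (hm : 2 ≤ m) :
    ∃ w F : ℕ → ℝ → ℝ, Sys m w F ∧ (∀ i : Fin m, w i 0 = a i) ∧ ∀ x, u x = w 0 ‖x‖ := by
  obtain ⟨e, he⟩ : ∃ e : EuclideanSpace ℝ (Fin (2 * m)), ‖e‖ = 1 :=
    ⟨EuclideanSpace.single ⟨0, by omega⟩ 1, by simp⟩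
  refine ⟨fun i r => (Δ^[i] u) (r • e),
    fun i r => r ^ (2 * m - 1) * deriv (fun r : ℝ => (Δ^[i] u) (r • e)) r, ⟨fun i hi => ?_,
    fun r => h.2.2.1 _⟩, fun i => by simpa using h.2.2.2 i,
    fun x => h.2.1 _ _ (by simp [norm_smul, he])⟩
  obtain ⟨h1, h2⟩ := h.iter he i (m - i) (by omega)
  simp only [Function.iterate_succ_apply']
  exact (h2.step (h1.of_le (by exact_mod_cast (by omega))) he (n := 2 * m - 1)
    (by simp; omega)).resolve_right (by omega)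

/-- the normalising constant -/
noncomputable def cst (m : ℕ) : ℝ :=
  (2 * m : ℕ) * (volume : Measure (EuclideanSpace ℝ (Fin (2 * m)))).real (Metric.ball 0 1)

lemma cst_pos (hm : 1 ≤ m) : 0 < cst m :=
  mul_pos (by exact_mod_cast (by omega)) (ENNReal.toReal_pos
    (Metric.measure_ball_pos _ _ one_pos).ne' measure_ball_lt_top.ne)

lemma Sys.vol {w F : ℕ → ℝ → ℝ} (h : Sys m w F) (hm : 2 ≤ m) (hu : ∀ x, u x = w 0 ‖x‖) :
    Integrable (fun x => Real.exp (u x)) ∧ ∃ l, Tendsto (fun r => -F (m - 1) r) atTop (𝓝 l) ∧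
      (∀ r ≥ 0, -F (m - 1) r ≤ l) ∧ ∫ x, Real.exp (u x) = cst m * l := by
  have : Nontrivial (EuclideanSpace ℝ (Fin (2 * m))) :=
    Module.nontrivial_of_finrank_pos (R := ℝ) (by simp; omega)
  obtain ⟨B, hB⟩ := h.M_bdd hm
  have hmono : Monotone fun r => -F (m - 1) (max r 0) := fun r s hrs =>
    h.M_mono (by omega) (le_max_right _ _) (max_le_max_right _ hrs)
  have hbdd : BddAbove (range fun r => -F (m - 1) (max r 0)) :=
    ⟨B, by rintro _ ⟨r, rfl⟩; exact hB _ (le_max_right _ _)⟩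
  have h1 : Tendsto (fun r => -F (m - 1) r) atTop (𝓝 (⨆ r, -F (m - 1) (max r 0))) :=
    (tendsto_atTop_ciSup hmono hbdd).congr' ((eventually_ge_atTop 0).mono fun r hr => by
      simp only [max_eq_left hr])
  have hs := h.step (m - 1) (by omega)
  have hc : ContinuousWithinAt (fun r => -F (m - 1) r) (Ici 0) 0 := hs.cF.neg 0 self_mem_Ici
  have hp : ∀ x ∈ Ioi (0 : ℝ), 0 ≤ x ^ (2 * m - 1) * Real.exp (w 0 x) := fun x hx =>
    mul_nonneg (pow_nonneg (le_of_lt hx) _) (Real.exp_pos _).le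
  simp only [hu]
  refine ⟨?_, _, h1, fun r hr => ?_, ?_⟩
  · rw [integrable_fun_norm_addHaar volume (f := fun r => Real.exp (w 0 r))]
    simpa using integrableOn_Ioi_deriv_of_nonneg hc (h.dM (by omega)) hp h1
  · have := le_ciSup hbdd r
    rwa [max_eq_left hr] at this
  · rw [integral_fun_norm_addHaar volume (fun r => Real.exp (w 0 r))]
    have := integral_Ioi_of_hasDerivAt_of_nonneg hc (h.dM (by omega)) hp h1
    simp only [hs.F0, neg_zero, sub_zero] at this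
    simp only [finrank_euclideanSpace, Fintype.card_fin, smul_eq_mul, this, nsmul_eq_mul, cst]
    ring

theorem IsRadialSol.integrable (h : IsRadialSol m a u) (hm : 2 ≤ m) :
    Integrable fun x => Real.exp (u x) := by
  obtain ⟨w, F, h1, -, h2⟩ := h.sys hm
  exact (h1.vol hm h2).1

theorem exists_discont (m : ℕ) (U : (Fin (m + 3) → ℝ) → EuclideanSpace ℝ (Fin (2 * (m + 3))) → ℝ)
    (hU : ∀ a, IsRadialSol (m + 3) a (U a)) :
    ∃ a, ¬ ContinuousAt (fun a => ∫ x, Real.exp (U a x)) a := by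
  by_contra hcon
  push Not at hcon
  obtain ⟨K, hK⟩ := exists_gap m
  have hc := cst_pos (m := m + 3) (by omega)
  let A : ℝ → Fin (m + 3) → ℝ := fun τ i => if i.1 = 0 then K else if i.1 = m + 2 then τ else -2
  have hA : Continuous A := continuous_pi fun i => by
    simp only [A]; split_ifs <;> fun_prop
  have hV : Continuous fun τ => ∫ x, Real.exp (U (A τ) x) :=
    (continuous_iff_continuousAt.2 hcon).comp hA
  have key : ∀ τ, (τ ≤ 0 ∨ (τ ≤ 1 ∧ ∫ x, Real.exp (U (A τ) x) ≤ cst (m + 3))) →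
      ∫ x, Real.exp (U (A τ) x) ≤ cst (m + 3) / 2 ∧ τ < 1 := by
    intro τ hτ
    obtain ⟨w, F, h1, h2, h3⟩ := (hU (A τ)).sys (by omega)
    obtain ⟨-, l, h4, h5, h6⟩ := h1.vol (by omega) h3
    have e1 : w (m + 2) 0 = τ := by simpa [A] using h2 ⟨m + 2, by omega⟩
    have := hK w F h1 (by simpa [A] using h2 0) (fun i hi hi' => by
      have := h2 ⟨i, by omega⟩
      simp only [A] at this
      rwa [if_neg (by omega), if_neg (by omega)] at this) (by
      rw [e1]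
      refine hτ.imp_right fun h7 => ⟨h7.1, fun r hr => (h5 r hr).trans ?_⟩
      have := h7.2
      rw [h6] at this
      exact (mul_le_iff_le_one_right hc).1 this)
    rw [e1] at this
    refine ⟨?_, this.2⟩
    have h8 : l ≤ 1 / 2 := le_of_tendsto h4 ((eventually_ge_atTop 0).mono this.1)
    rw [h6]; nlinarith
  have h0 := (key 0 (Or.inl le_rfl)).1
  have h1 : cst (m + 3) < ∫ x, Real.exp (U (A 1) x) := by
    by_contra hle
    exact lt_irrefl _ (key 1 (Or.inr ⟨le_rfl, not_lt.1 hle⟩)).2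
  obtain ⟨τ, hτ, h2⟩ := intermediate_value_Icc zero_le_one hV.continuousOn
    (show cst (m + 3) ∈ Icc _ _ from ⟨by linarith, h1.le⟩)
  have := (key τ (Or.inr ⟨hτ.2, h2.le⟩)).1
  have h3 : ∫ x, Real.exp (U (A τ) x) = cst (m + 3) := h2
  linarith

end Pool.Agent.P.MP_c8f9b2_an
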